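import Pool.Agent.Helper98.EQ.Goals
import Mathlib

/-!
# Project EQ (MP_5b9a11_al), packet CYC: the trace of a monomial tensor
-/

set_option autoImplicit false
set_option linter.unusedSectionVars false

namespace Pool.Agent.Helper45.EQ.CYC

open Pool.Agent.Helper98.EQ

variable {A : Type} [Fintype A]

/-- the set of the orbits -/
abbrev Orb (g : Equiv.Perm A) : Type := Quotient (Equiv.Perm.SameCycle.setoid g)

/-- the orbit of `a` -/
def q (g : Equiv.Perm A) (a : A) : Orb g := Quotient.mk (Equiv.Perm.SameCycle.setoid g) a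

/-- the representative of the orbit of `a` -/
noncomputable def rp (g : Equiv.Perm A) (a : A) : A := Quotient.out (q g a)

theorem q_eq_iff {g : Equiv.Perm A} {a b : A} : q g a = q g b ↔ g.SameCycle a b := by
  unfold q
  exact Quotient.eq

theorem q_pow (g : Equiv.Perm A) (i : ℕ) (a : A) : q g ((g ^ i) a) = q g a :=
  q_eq_iff.2 (Equiv.Perm.SameCycle.symm ⟨i, by simp⟩)

theorem q_inv (g : Equiv.Perm A) (a : A) : q g (g⁻¹ a) = q g a :=
  q_eq_iff.2 ⟨1, by simp⟩

theorem q_rp (g : Equiv.Perm A) (a : A) : q g (rp g a) = q g a := Quotient.out_eq _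

theorem rp_congr {g : Equiv.Perm A} {a b : A} (h : q g a = q g b) : rp g a = rp g b := by
  unfold rp
  rw [h]

theorem ex (g : Equiv.Perm A) (a : A) : ∃ i : ℕ, (g ^ i) (rp g a) = a :=
  (q_eq_iff.1 (q_rp g a)).exists_nat_pow_eq

open Classical in
/-- the index of `a` in its orbit -/
noncomputable def idx (g : Equiv.Perm A) (a : A) : ℕ := Nat.find (ex g a)

theorem idx_spec (g : Equiv.Perm A) (a : A) : (g ^ idx g a) (rp g a) = a := by
  classical
  exact Nat.find_spec (ex g a)

theorem idx_le {g : Equiv.Perm A} {a : A} {i : ℕ} (h : (g ^ i) (rp g a) = a) : idx g a ≤ i := by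
  classical
  exact Nat.find_min' (ex g a) h

theorem pow_succ_app (g : Equiv.Perm A) (i : ℕ) (a : A) : (g ^ (i + 1)) a = g ((g ^ i) a) := by
  rw [pow_succ']
  rfl

theorem idx_pred {g : Equiv.Perm A} {a : A} (h : a ≠ rp g a) : idx g a = idx g (g⁻¹ a) + 1 := by
  have hr : rp g (g⁻¹ a) = rp g a := rp_congr (q_inv g a)
  have h1 : idx g a ≤ idx g (g⁻¹ a) + 1 := by
    apply idx_le
    rw [pow_succ_app, ← hr, idx_spec]
    simp
  have h2 : idx g a ≠ 0 := by
    intro h0
    have := idx_spec g a
    rw [h0] at this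
    exact h (by simpa using this.symm)
  obtain ⟨k, hk⟩ := Nat.exists_eq_succ_of_ne_zero h2
  have h3 : idx g (g⁻¹ a) ≤ k := by
    apply idx_le
    rw [hr]
    have := idx_spec g a
    rw [hk, Nat.succ_eq_add_one, pow_succ_app] at this
    exact (Equiv.Perm.eq_inv_iff_eq).2 this
  omega

theorem idx_zero {g : Equiv.Perm A} {a : A} (h : a = rp g a) : idx g a = 0 := by
  have : idx g a ≤ 0 := idx_le (by rw [← h]; simp)
  omega

section

variable {M : Type} [AddCommGroup M] (g : Equiv.Perm A) (j : A → M)

/-- the potential -/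
noncomputable def pot (a : A) : M := ∑ t ∈ Finset.range (idx g a), j ((g ^ (t + 1)) (rp g a))

open Classical in
/-- the sum of `j` over an orbit -/
noncomputable def os (o : Orb g) : M := ∑ a ∈ Finset.univ.filter (fun a => q g a = o), j a

open Classical in
/-- the function supported on the representatives -/
noncomputable def jr (a : A) : M := if a = rp g a then os g j (q g a) else 0

theorem os_eq (a : A) (ha : a = rp g a) :
    os g j (q g a) = j a + pot g j (g⁻¹ a) := by
  classical
  have hr : rp g (g⁻¹ a) = a := by rw [rp_congr (q_inv g a), ← ha]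
  set M₀ := idx g (g⁻¹ a) with hM
  have hM1 : (g ^ (M₀ + 1)) a = a := by
    rw [pow_succ_app]
    have := idx_spec g (g⁻¹ a)
    rw [hr, ← hM] at this
    rw [this]
    simp
  have hrb : ∀ b, q g b = q g a → rp g b = a := by
    intro b hb
    rw [rp_congr hb, ← ha]
  have h1 : ∀ b, q g b = q g a → idx g b < M₀ + 1 := by
    intro b hb
    by_contra hc
    push Not at hc
    have h2 := idx_spec g b
    rw [hrb b hb] at h2
    have h3 : (g ^ (idx g b - (M₀ + 1))) (rp g b) = b := by
      rw [hrb b hb]
      have : idx g b = (idx g b - (M₀ + 1)) + (M₀ + 1) := by omega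
      rw [this, pow_add, Equiv.Perm.mul_apply, hM1] at h2
      exact h2
    have := idx_le h3
    omega
  have h2 : ∀ t, t < M₀ + 1 → idx g ((g ^ t) a) = t := by
    intro t ht
    have hq : q g ((g ^ t) a) = q g a := q_pow g t a
    have h3 : idx g ((g ^ t) a) ≤ t := idx_le (by rw [hrb _ hq])
    by_contra hc
    have hs : idx g ((g ^ t) a) < t := lt_of_le_of_ne h3 hc
    have h4 := idx_spec g ((g ^ t) a)
    rw [hrb _ hq] at h4
    have h5 : (g ^ (M₀ - t + idx g ((g ^ t) a))) (rp g (g⁻¹ a)) = g⁻¹ a := by
      rw [hr, pow_add, Equiv.Perm.mul_apply, h4, ← Equiv.Perm.mul_apply, ← pow_add]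
      have : M₀ - t + t = M₀ := by omega
      rw [this]
      have h6 := idx_spec g (g⁻¹ a)
      rw [hr, ← hM] at h6
      exact h6
    have := idx_le h5
    omega
  have h3 : os g j (q g a) = ∑ t ∈ Finset.range (M₀ + 1), j ((g ^ t) a) := by
    unfold os
    refine Finset.sum_nbij' (fun b => idx g b) (fun t => (g ^ t) a) ?_ ?_ ?_ ?_ ?_
    · intro b hb
      exact Finset.mem_range.2 (h1 b (Finset.mem_filter.1 hb).2)
    · intro t _
      exact Finset.mem_filter.2 ⟨Finset.mem_univ _, q_pow g t a⟩
    · intro b hb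
      have := idx_spec g b
      rw [hrb b (Finset.mem_filter.1 hb).2] at this
      exact this
    · intro t ht
      exact h2 t (Finset.mem_range.1 ht)
    · intro b hb
      have := idx_spec g b
      rw [hrb b (Finset.mem_filter.1 hb).2] at this
      rw [this]
  rw [h3, Finset.sum_range_succ']
  unfold pot
  rw [hr, ← hM, add_comm]
  simp

theorem pot_eq (a : A) : j a = pot g j a + jr g j a - pot g j (g⁻¹ a) := by
  classical
  by_cases h : a = rp g a
  · have h1 : pot g j a = 0 := by
      unfold pot
      rw [idx_zero h]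
      simp
    have h2 : jr g j a = os g j (q g a) := by
      unfold jr
      rw [if_pos h]
    rw [h1, h2, os_eq g j a h]
    abel
  · have h2 : jr g j a = 0 := by
      unfold jr
      rw [if_neg h]
    have hr : rp g (g⁻¹ a) = rp g a := rp_congr (q_inv g a)
    have h1 : pot g j a = pot g j (g⁻¹ a) + j a := by
      unfold pot
      rw [idx_pred h, Finset.sum_range_succ, hr]
      congr 2
      rw [← idx_pred h, idx_spec]
    rw [h1, h2]
    abel

end

theorem const {n : Type} (g : Equiv.Perm A) (x : A → n) (h : ∀ a, a ≠ rp g a → x a = x (g⁻¹ a)) :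
    ∀ (i : ℕ) (a : A), idx g a = i → x a = x (rp g a) := by
  intro i
  induction i with
  | zero =>
    intro a ha
    by_cases h1 : a = rp g a
    · rw [← h1]
    · have := idx_pred h1
      omega
  | succ k ih =>
    intro a ha
    by_cases h1 : a = rp g a
    · rw [← h1]
    · have h2 := idx_pred h1
      rw [h a h1, ih (g⁻¹ a) (by omega), rp_congr (q_inv g a)]

theorem trace_form {n R : Type} [DecidableEq A] [Fintype n] [DecidableEq n] [CommRing R]
    (g : Equiv.Perm A) (f : A → Matrix n n R) :
    (tn f * pm R g).trace = ∑ x : A → n, ∏ a, f a (x a) (x (g⁻¹ a)) := by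
  unfold Matrix.trace
  refine Finset.sum_congr rfl fun x _ => ?_
  rw [Matrix.diag_apply, Matrix.mul_apply]
  rw [Finset.sum_eq_single (fun a => x (g⁻¹ a))]
  · unfold tn pm
    rw [if_pos (fun a => rfl), mul_one]
  · intro w _ hw
    have : ¬ ∀ a, w a = x (g⁻¹ a) := fun h => hw (funext h)
    unfold pm
    rw [if_neg this, mul_zero]
  · intro h
    exact absurd (Finset.mem_univ _) h

/-- the trace of the tensor which is supported on the representatives -/
theorem trace_rep {n R : Type} [DecidableEq A] [Fintype n] [DecidableEq n] [CommRing R]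
    {M : Type} [AddCommGroup M] (τ : M → Matrix n n R) (h0 : τ 0 = 1)
    (g : Equiv.Perm A) (j : A → M) [Fintype (Orb g)] :
    (tn (fun a => τ (jr g j a)) * pm R g).trace = ∏ o : Orb g, (τ (os g j o)).trace := by
  classical
  rw [trace_form]
  set F : (A → n) → R := fun x => ∏ a, τ (jr g j a) (x a) (x (g⁻¹ a)) with hF
  have hinj : Function.Injective (fun (y : Orb g → n) (a : A) => y (q g a)) := by
    intro y y' h
    funext o
    obtain ⟨a, rfl⟩ : ∃ a, q g a = o := Quotient.exists_rep o
    exact congrFun h a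
  have h1 : ∑ x : A → n, F x =
      ∑ x ∈ Finset.univ.image (fun (y : Orb g → n) (a : A) => y (q g a)), F x := by
    symm
    refine Finset.sum_subset (Finset.subset_univ _) ?_
    intro x _ hx
    by_contra hne
    apply hx
    have h2 : ∀ a, a ≠ rp g a → x a = x (g⁻¹ a) := by
      intro a ha
      by_contra hc
      apply hne
      refine Finset.prod_eq_zero (Finset.mem_univ a) ?_
      unfold jr
      rw [if_neg ha, h0, Matrix.one_apply_ne hc]
    refine Finset.mem_image.2 ⟨fun o => x (Quotient.out o), Finset.mem_univ _, ?_⟩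
    funext a
    exact (const g x h2 _ a rfl).symm
  rw [h1, Finset.sum_image (fun y _ y' _ h => hinj h)]
  have h3 : ∀ y : Orb g → n, F (fun a => y (q g a)) = ∏ o, τ (os g j o) (y o) (y o) := by
    intro y
    rw [hF]
    show ∏ a, τ (jr g j a) (y (q g a)) (y (q g (g⁻¹ a))) = _
    rw [← Finset.prod_fiberwise (s := Finset.univ) (g := fun a => q g a)]
    refine Finset.prod_congr rfl fun o _ => ?_
    obtain ⟨b, rfl⟩ : ∃ b, q g b = o := Quotient.exists_rep o
    rw [Finset.prod_eq_single (rp g b)]
    · have e1 : rp g (rp g b) = rp g b := rp_congr (q_rp g b)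
      unfold jr
      rw [if_pos e1.symm, q_inv, q_rp]
    · intro a ha hne
      have hq : q g a = q g b := (Finset.mem_filter.1 ha).2
      have : a ≠ rp g a := by
        rw [rp_congr hq]
        exact hne
      unfold jr
      rw [if_neg this, h0, q_inv, Matrix.one_apply_eq]
    · intro hn
      exact (hn (Finset.mem_filter.2 ⟨Finset.mem_univ (rp g b), q_rp g b⟩)).elim
  rw [Finset.sum_congr rfl fun y _ => h3 y]
  unfold Matrix.trace
  simp only [Matrix.diag_apply]
  rw [Finset.prod_univ_sum, Fintype.piFinset_univ]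

theorem t (hT : S_TEN) : S_CYC := by
  intro p _ A n R _ _ _ _ _ τ L h0 hadd htr g j
  classical
  obtain ⟨t1, t2, -, -, -, -, t7⟩ := hT A n R
  have hfac : tn (fun a => τ (j a)) * pm R g =
      tn (fun a => τ (pot g j a)) * ((tn (fun a => τ (jr g j a)) * pm R g) *
        tn (fun a => τ (-pot g j a))) := by
    rw [mul_assoc (tn (fun a => τ (jr g j a))), t7, ← mul_assoc (tn (fun a => τ (jr g j a))),
      ← mul_assoc, t1, t1]
    congr 1
    congr 1
    funext a
    rw [← hadd, ← hadd]
    congr 1
    have := pot_eq g j a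
    rw [sub_eq_add_neg, add_assoc] at this
    exact this
  have hcan : tn (fun a => τ (-pot g j a)) * tn (fun a => τ (pot g j a)) =
      (1 : Matrix (A → n) (A → n) R) := by
    rw [t1, ← t2]
    congr 1
    funext a
    rw [← hadd, neg_add_cancel, h0]
  have htrc : (tn (fun a => τ (j a)) * pm R g).trace =
      (tn (fun a => τ (jr g j a)) * pm R g).trace := by
    rw [hfac, Matrix.trace_mul_comm, mul_assoc, hcan, mul_one]
  rw [htrc]
  let _ : Fintype (Orb g) := Fintype.ofFinite _
  rw [trace_rep τ h0 g j]
  refine ⟨(Finset.univ.filter fun o : Orb g => os g j o = 0).card, ?_⟩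
  have hnz : nz g j = (Finset.univ.filter fun o : Orb g => ¬ os g j o = 0).card := by
    unfold nz
    rw [Nat.card_eq_fintype_card, Fintype.card_subtype]
    rfl
  rw [hnz, ← Finset.prod_filter_mul_prod_filter_not Finset.univ (fun o : Orb g => os g j o = 0)]
  rw [mul_comm]
  congr 1
  · rw [← Finset.prod_const]
    refine Finset.prod_congr rfl fun o ho => ?_
    rw [htr, if_neg (Finset.mem_filter.1 ho).2]
  · rw [← Finset.prod_const]
    refine Finset.prod_congr rfl fun o ho => ?_
    rw [htr, if_pos (Finset.mem_filter.1 ho).2]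

end Pool.Agent.Helper45.EQ.CYC
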